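import Mathlib

set_option autoImplicit false

/-!
# A ten-element set of integers containing more tiles than ten consecutive integers
-/

namespace Pool.Agent.Results.MP_237b44_co.NotInterval

/-- `S` tiles the integers: every integer is `s + z` for a unique pair `s ∈ S`, `z ∈ Z`, i.e.
`ℤ` is the disjoint union of the translates `S + z`, `z ∈ Z`. -/
def IsTile (S : Finset ℤ) : Prop :=
  ∃ Z : Set ℤ, ∀ x : ℤ, ∃! p : ℤ × ℤ, p.1 ∈ S ∧ p.2 ∈ Z ∧ p.1 + p.2 = x

open Classical in
/-- `T(M)`, the number of subsets of `M` that are tiles. -/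
noncomputable def tileCount (M : Finset ℤ) : ℕ := (M.powerset.filter IsTile).card

/-! ### Non-tiles: the forced run -/

/-- Run the forced filling: `a` is the pattern of the tile (bit 0 set), `s` the pattern of the
positions occupied by earlier translates. Returns true if a conflict occurs. -/
def dies (a : ℕ) : ℕ → ℕ → Bool
  | 0, _ => false
  | k + 1, s => if s % 2 = 1 then dies a k (s / 2)
      else if a &&& s = 0 then dies a k ((a ||| s) / 2) else true

theorem exists_bits (P : ℕ → Prop) (n : ℕ) (hP : ∀ i, P i → i < n) :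
    ∃ s : ℕ, s < 2 ^ n ∧ ∀ i, s.testBit i = true ↔ P i := by
  classical
  refine ⟨Nat.ofBits (fun i : Fin n => decide (P i)), Nat.ofBits_lt_two_pow _, fun i => ?_⟩
  by_cases h : i < n
  · rw [Nat.testBit_ofBits_lt _ _ h]
    simp
  · rw [Nat.testBit_ofBits_ge _ _ (not_lt.1 h)]
    simp only [Bool.false_eq_true, false_iff]
    exact fun hp => h (hP i hp)

/-- Along a tiling the forced run never meets a conflict. -/
theorem not_dies {S : Finset ℤ} {Z : Set ℤ}
    (hZ : ∀ x : ℤ, ∃! p : ℤ × ℤ, p.1 ∈ S ∧ p.2 ∈ Z ∧ p.1 + p.2 = x) {m : ℤ} {a D : ℕ}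
    (ha : ∀ i : ℕ, a.testBit i = true ↔ m + i ∈ S) (hS : ∀ x ∈ S, m ≤ x ∧ x ≤ m + D)
    (hm : m ∈ S) (k : ℕ) : ∀ (x : ℤ) (s : ℕ),
      (∀ i : ℕ, s.testBit i = true ↔ ∃ z ∈ Z, z + m < x ∧ x + i - z ∈ S) → dies a k s = false := by
  induction k with
  | zero => intro x s _; rfl
  | succ k ih =>
    intro x s hs
    have huniq : ∀ z ∈ Z, ∀ z' ∈ Z, ∀ y : ℤ, y - z ∈ S → y - z' ∈ S → z = z' := by
      intro z hz z' hz' y h h'
      obtain ⟨p, -, hp⟩ := hZ y
      have h1 := hp (y - z, z) ⟨h, hz, by simp⟩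
      have h2 := hp (y - z', z') ⟨h', hz', by simp⟩
      have h3 := h1.trans h2.symm
      exact (Prod.mk.inj h3).2
    rw [dies]
    by_cases hodd : s % 2 = 1
    · rw [if_pos hodd]
      apply ih (x + 1)
      have h0 : s.testBit 0 = true := by
        rw [Nat.testBit_zero]; simp [hodd]
      obtain ⟨z0, hz0, hlt0, hc0⟩ := (hs 0).1 h0
      intro i
      have e1 : (s / 2).testBit i = s.testBit (i + 1) := (Nat.testBit_succ s i).symm
      rw [e1, hs (i + 1)]
      constructor
      · rintro ⟨z, hz, hlt, hc⟩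
        refine ⟨z, hz, by omega, ?_⟩
        have : x + 1 + (i : ℤ) - z = x + ((i + 1 : ℕ) : ℤ) - z := by push_cast; ring
        rw [this]; exact hc
      · rintro ⟨z, hz, hlt, hc⟩
        have hne : z + m ≠ x := by
          intro he
          have h1 : x - z ∈ S := by
            have : x - z = m := by omega
            rw [this]; exact hm
          have h2 : x - z0 ∈ S := by simpa using hc0
          have := huniq z hz z0 hz0 x h1 h2
          omega
        refine ⟨z, hz, by omega, ?_⟩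
        have : x + ((i + 1 : ℕ) : ℤ) - z = x + 1 + (i : ℤ) - z := by push_cast; ring
        rw [this]; exact hc
    · rw [if_neg hodd]
      -- the position `x` is the first point of a translate
      have h0 : ¬ ∃ z ∈ Z, z + m < x ∧ x - z ∈ S := by
        intro h
        have h1 := (hs 0).2 (by simpa using h)
        rw [Nat.testBit_zero] at h1
        simp at h1
        exact hodd h1
      obtain ⟨⟨p1, p2⟩, ⟨h1, h2, h3⟩, -⟩ := hZ x
      simp only at h1 h2 h3
      have hp2 : p2 + m = x := by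
        by_contra hne
        apply h0
        refine ⟨p2, h2, ?_, ?_⟩
        · have := (hS p1 h1).1
          omega
        · have : x - p2 = p1 := by omega
          rw [this]; exact h1
      have hland : a &&& s = 0 := by
        apply Nat.eq_of_testBit_eq
        intro i
        rw [Nat.testBit_land, Nat.zero_testBit]
        by_contra hcon
        rw [Bool.not_eq_false, Bool.and_eq_true] at hcon
        obtain ⟨z, hz, hlt, hc⟩ := (hs i).1 hcon.2
        have h4 := (ha i).1 hcon.1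
        have h5 : x + i - p2 ∈ S := by
          have : x + (i : ℤ) - p2 = m + i := by omega
          rw [this]; exact h4
        have := huniq z hz p2 h2 _ hc h5
        omega
      rw [if_pos hland]
      apply ih (x + 1)
      intro i
      have e1 : ((a ||| s) / 2).testBit i = (a ||| s).testBit (i + 1) :=
        (Nat.testBit_succ _ i).symm
      rw [e1, Nat.testBit_lor, Bool.or_eq_true, hs (i + 1), ha (i + 1)]
      constructor
      · rintro (h | ⟨z, hz, hlt, hc⟩)
        · refine ⟨p2, h2, by omega, ?_⟩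
          have : x + 1 + (i : ℤ) - p2 = m + ((i + 1 : ℕ) : ℤ) := by push_cast; omega
          rw [this]; exact h
        · refine ⟨z, hz, by omega, ?_⟩
          have : x + 1 + (i : ℤ) - z = x + ((i + 1 : ℕ) : ℤ) - z := by push_cast; ring
          rw [this]; exact hc
      · rintro ⟨z, hz, hlt, hc⟩
        by_cases he : z + m = x
        · left
          have : m + ((i + 1 : ℕ) : ℤ) = x + 1 + (i : ℤ) - z := by push_cast; omega
          rw [this]; exact hc
        · right
          refine ⟨z, hz, by omega, ?_⟩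
          have : x + ((i + 1 : ℕ) : ℤ) - z = x + 1 + (i : ℤ) - z := by push_cast; ring
          rw [this]; exact hc

/-- A tile pattern survives from some starting pattern `s < a`. -/
theorem exists_survivor {S : Finset ℤ} (hT : IsTile S) {m : ℤ} {a : ℕ}
    (ha : ∀ i : ℕ, a.testBit i = true ↔ m + i ∈ S) (hS : ∀ x ∈ S, m ≤ x)
    (hm : m ∈ S) (k : ℕ) : ∃ s < a, dies a k s = false := by
  obtain ⟨Z, hZ⟩ := hT
  -- the largest element
  have hne : S.Nonempty := ⟨m, hm⟩
  set M := S.max' hne with hM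
  have hMS : M ∈ S := Finset.max'_mem _ _
  obtain ⟨D, hD⟩ : ∃ D : ℕ, M = m + D := ⟨(M - m).toNat, by have := hS M hMS; omega⟩
  have hS' : ∀ x ∈ S, m ≤ x ∧ x ≤ m + D := fun x hx =>
    ⟨hS x hx, by rw [← hD]; exact Finset.le_max' _ _ hx⟩
  obtain ⟨s, hs1, hs2⟩ := exists_bits
    (fun i => ∃ z ∈ Z, z + m < 0 ∧ 0 + (i : ℤ) - z ∈ S) D (by
      rintro i ⟨z, hz, hlt, hc⟩
      have := (hS' _ hc).2
      omega)
  refine ⟨s, ?_, not_dies hZ ha hS' hm k 0 s hs2⟩
  have hbit : a.testBit D = true := (ha D).2 (by rw [← hD]; exact hMS)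
  exact lt_of_lt_of_le hs1 (Nat.ge_two_pow_of_testBit hbit)

/-! ### Ten consecutive integers -/

/-- patterns (bit 0 set) of the tiles of diameter at most nine -/
def good : List ℕ :=
  [1, 3, 5, 7, 9, 15, 17, 21, 31, 33, 35, 45, 49, 51, 63, 65, 73, 75, 85, 93, 105, 127, 129, 
   133, 135, 153, 155, 161, 165, 189, 195, 217, 225, 255, 257, 259, 273, 279, 315, 341, 381, 
   385, 403, 441, 455, 465, 511, 513, 525, 527, 561, 567, 585, 589, 635, 645, 651, 693, 705, 
   713, 765, 771, 775, 819, 837, 889, 899, 945, 961, 1023]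

/-- all starting patterns below `s` die -/
def allDie (a : ℕ) : ℕ → Bool
  | 0 => true
  | s + 1 => dies a 40 s && allDie a s

theorem allDie_spec {a n : ℕ} (h : allDie a n = true) : ∀ s < n, dies a 40 s = true := by
  induction n with
  | zero => intro s hs; omega
  | succ n ih =>
    rw [allDie, Bool.and_eq_true] at h
    intro s hs
    rcases Nat.lt_succ_iff_lt_or_eq.1 hs with h' | h'
    · exact ih h.2 s h'
    · rw [h']; exact h.1

/-- every odd pattern is good or dies -/
def checkAll : ℕ → Bool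
  | 0 => true
  | n + 1 => (good.contains (2 * n + 1) || allDie (2 * n + 1) (2 * n + 1)) && checkAll n

theorem checkAll_512 : checkAll 512 = true := by decide +kernel

theorem checkAll_spec {n : ℕ} (h : checkAll n = true) : ∀ i < n,
    2 * i + 1 ∈ good ∨ ∀ s < 2 * i + 1, dies (2 * i + 1) 40 s = true := by
  induction n with
  | zero => intro i hi; omega
  | succ n ih =>
    rw [checkAll, Bool.and_eq_true, Bool.or_eq_true] at h
    intro i hi
    rcases Nat.lt_succ_iff_lt_or_eq.1 hi with h' | h'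
    · exact ih h.2 i h'
    · subst h'
      rcases h.1 with h1 | h1
      · left; simpa using h1
      · right; exact allDie_spec h1

/-- the pattern of a subset of `{1, …, 10}` -/
def msk (S : Finset ℤ) : ℕ := Nat.ofBits (fun i : Fin 10 => decide (((i : ℕ) : ℤ) + 1 ∈ S))

theorem msk_lt (S : Finset ℤ) : msk S < 1024 := Nat.ofBits_lt_two_pow _

theorem msk_testBit {S : Finset ℤ} (hS : S ⊆ Finset.Icc 1 10) (i : ℕ) :
    (msk S).testBit i = true ↔ (i : ℤ) + 1 ∈ S := by
  unfold msk
  by_cases h : i < 10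
  · rw [Nat.testBit_ofBits_lt _ _ h]
    simp
  · rw [Nat.testBit_ofBits_ge _ _ (not_lt.1 h)]
    simp only [Bool.false_eq_true, false_iff]
    intro hi
    have := Finset.mem_Icc.1 (hS hi)
    omega

theorem msk_inj {S S' : Finset ℤ} (hS : S ⊆ Finset.Icc 1 10) (hS' : S' ⊆ Finset.Icc 1 10)
    (h : msk S = msk S') : S = S' := by
  have key : ∀ {S S' : Finset ℤ}, S ⊆ Finset.Icc 1 10 → S' ⊆ Finset.Icc 1 10 →
      msk S = msk S' → S ⊆ S' := by
    intro S S' hS hS' h x hx
    have h1 := Finset.mem_Icc.1 (hS hx)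
    have e : ((x - 1).toNat : ℤ) + 1 = x := by omega
    have h2 : ((x - 1).toNat : ℤ) + 1 ∈ S := by rw [e]; exact hx
    rw [← msk_testBit hS, h, msk_testBit hS', e] at h2
    exact h2
  exact Finset.Subset.antisymm (key hS hS' h) (key hS' hS h.symm)

/-- the odd part (of a number with at most `k` trailing zeros) -/
def odp : ℕ → ℕ → ℕ
  | 0, n => n
  | k + 1, n => if n % 2 = 0 then odp k (n / 2) else n

theorem odp_spec {a : ℕ} (ha : a % 2 = 1) : ∀ (k v : ℕ), v ≤ k → odp k (a * 2 ^ v) = a := by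
  intro k
  induction k with
  | zero =>
    intro v hv
    have : v = 0 := by omega
    subst this
    simp [odp]
  | succ k ih =>
    intro v hv
    cases v with
    | zero =>
      rw [pow_zero, mul_one, odp, if_neg (by omega)]
    | succ v =>
      have h1 : a * 2 ^ (v + 1) = 2 * (a * 2 ^ v) := by ring
      rw [h1, odp, if_pos (by omega), Nat.mul_div_cancel_left _ two_pos]
      exact ih v (by omega)

/-- The pattern of a tile inside `{1, …, 10}` is a shifted good pattern. -/
theorem good_of_tile {S : Finset ℤ} (hS : S ⊆ Finset.Icc 1 10) (hT : IsTile S) :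
    odp 10 (msk S) ∈ good := by
  have hne : S.Nonempty := by
    rw [Finset.nonempty_iff_ne_empty]
    rintro rfl
    obtain ⟨Z, hZ⟩ := hT
    obtain ⟨p, hp, -⟩ := hZ 0
    simp at hp
  set m := S.min' hne with hm
  have hmS : m ∈ S := Finset.min'_mem _ _
  have hm1 := Finset.mem_Icc.1 (hS hmS)
  obtain ⟨v, hv⟩ : ∃ v : ℕ, m = v + 1 := ⟨(m - 1).toNat, by omega⟩
  set a := msk S / 2 ^ v with ha
  have hbits : ∀ i : ℕ, a.testBit i = true ↔ m + i ∈ S := by
    intro i
    rw [ha, ← Nat.shiftRight_eq_div_pow, Nat.testBit_shiftRight, msk_testBit hS]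
    have : ((v + i : ℕ) : ℤ) + 1 = m + i := by push_cast; omega
    rw [this]
  have hodd : a % 2 = 1 := by
    have h0 := (hbits 0).2 (by simpa using hmS)
    rw [Nat.testBit_zero] at h0
    simpa using h0
  have hmod : msk S % 2 ^ v = 0 := by
    apply Nat.eq_of_testBit_eq
    intro i
    rw [Nat.testBit_mod_two_pow, Nat.zero_testBit]
    by_contra hcon
    rw [Bool.not_eq_false, Bool.and_eq_true, decide_eq_true_eq, msk_testBit hS] at hcon
    have := Finset.min'_le S _ hcon.2
    omega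
  have hmask : msk S = a * 2 ^ v := by
    have := Nat.div_add_mod (msk S) (2 ^ v)
    rw [hmod, add_zero] at this
    rw [ha, mul_comm]
    exact this.symm
  rw [hmask, odp_spec hodd 10 v (by omega)]
  have hlt : a < 1024 := lt_of_le_of_lt (Nat.div_le_self _ _) (msk_lt S)
  obtain ⟨s, hs1, hs2⟩ := exists_survivor hT hbits (fun x hx => Finset.min'_le S x hx) hmS 40
  have ha2 : a = 2 * (a / 2) + 1 := by omega
  rcases checkAll_spec checkAll_512 (a / 2) (by omega) with h | h
  · rwa [← ha2] at h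
  · rw [← ha2] at h
    have := h s hs1
    rw [this] at hs2
    exact absurd hs2 (by decide)

theorem count_allowed :
    ((Finset.range 1024).filter (fun n => good.contains (odp 10 n) = true)).card = 210 := by
  decide +kernel

theorem tileCount_interval : tileCount (Finset.Icc 1 10) ≤ 210 := by
  classical
  rw [← count_allowed]
  unfold tileCount
  apply Finset.card_le_card_of_injOn msk
  · intro S hS
    rw [Finset.mem_coe, Finset.mem_filter, Finset.mem_powerset] at hS
    rw [Finset.mem_coe, Finset.mem_filter, Finset.mem_range]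
    exact ⟨msk_lt S, by simpa using good_of_tile hS.1 hS.2⟩
  · intro S hS S' hS' h
    rw [Finset.mem_coe, Finset.mem_filter, Finset.mem_powerset] at hS hS'
    exact msk_inj hS.1 hS'.1 h

/-! ### The ten-element set -/

/-- the elements of the set -/
def El (i : ℕ) : ℕ := [1, 7, 13, 18, 19, 20, 24, 26, 30, 32].getD i 0

/-- the ten-element set -/
def M10 : Finset ℤ := {1, 7, 13, 18, 19, 20, 24, 26, 30, 32}

/-- the subset with a given pattern of indices, as a list -/
def subL (m : ℕ) : List ℕ := ((List.range 10).filter (fun i => m.testBit i)).map El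

/-- the subset with a given pattern of indices -/
def subS (m : ℕ) : Finset ℤ := ((subL m).map (fun a : ℕ => (a : ℤ))).toFinset

theorem mem_subS {m : ℕ} {x : ℤ} : x ∈ subS m ↔ ∃ a ∈ subL m, (a : ℤ) = x := by
  simp [subS]

/-- all pairs -/
def pairs (A B : List ℕ) : List (ℕ × ℕ) := A.flatMap (fun a => B.map (fun b => (a, b)))

theorem mem_pairs {A B : List ℕ} {p : ℕ × ℕ} : p ∈ pairs A B ↔ p.1 ∈ A ∧ p.2 ∈ B := by
  obtain ⟨a, b⟩ := p
  simp only [pairs, List.mem_flatMap, List.mem_map, Prod.mk.injEq]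
  constructor
  · rintro ⟨a', ha', b', hb', rfl, rfl⟩; exact ⟨ha', hb'⟩
  · rintro ⟨ha, hb⟩; exact ⟨a, ha, b, hb, rfl, rfl⟩

/-- `A ⊕ B` is the group of residues mod `N` -/
def okCert (A : List ℕ) (N : ℕ) (B : List ℕ) : Bool :=
  decide (0 < N) &&
    (List.range N).all (fun r => ((pairs A B).filter (fun p => (p.1 + p.2) % N == r)).length == 1)

theorem tile_of_cert {m N : ℕ} {B : List ℕ} (h : okCert (subL m) N B = true) :
    IsTile (subS m) := by
  rw [okCert, Bool.and_eq_true, decide_eq_true_eq, List.all_eq_true] at h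
  obtain ⟨hN, h⟩ := h
  have hN' : (0 : ℤ) < N := by exact_mod_cast hN
  refine ⟨{z | ∃ b ∈ B, (N : ℤ) ∣ z - b}, fun x => ?_⟩
  -- the residue of `x`
  obtain ⟨r, hr⟩ : ∃ r : ℕ, x % N = r := ⟨(x % N).toNat, by
    have := Int.emod_nonneg x hN'.ne'; omega⟩
  have hrN : r < N := by
    have := Int.emod_lt_of_pos x hN'; omega
  have h1 := h r (List.mem_range.2 hrN)
  rw [beq_iff_eq, List.length_eq_one_iff] at h1
  obtain ⟨q, hq⟩ := h1
  have hmem : ∀ p : ℕ × ℕ, p.1 ∈ subL m → p.2 ∈ B → (p.1 + p.2) % N = r → p = q := by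
    intro p hp1 hp2 hp3
    have : p ∈ [q] := by
      rw [← hq, List.mem_filter]
      exact ⟨mem_pairs.2 ⟨hp1, hp2⟩, by simpa using hp3⟩
    simpa using this
  have hq1 : q ∈ (pairs (subL m) B).filter (fun p => (p.1 + p.2) % N == r) := by
    rw [hq]; simp
  rw [List.mem_filter, mem_pairs] at hq1
  obtain ⟨⟨hqA, hqB⟩, hqr⟩ := hq1
  rw [beq_iff_eq] at hqr
  have hcong : ∀ a b : ℕ, ∀ z : ℤ, (a : ℤ) + z = x → ((N : ℤ) ∣ z - b ↔ (a + b) % N = r) := by
    intro a b z hz
    have e1 : ((a + b) % N = r) ↔ (((a : ℤ) + b) % N = x % N) := by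
      rw [hr]
      constructor
      · intro h; exact_mod_cast congrArg (fun n : ℕ => (n : ℤ)) h
      · intro h; exact_mod_cast h
    rw [e1]
    constructor
    · intro hd
      have : (N : ℤ) ∣ x - (a + b) := by
        have e2 : x - ((a : ℤ) + b) = z - b := by linarith
        rw [e2]; exact hd
      exact ((Int.emod_emod_of_dvd _ (dvd_refl _)).symm ▸
        (Int.emod_emod_of_dvd _ (dvd_refl _)).symm ▸
        (Int.emod_eq_emod_iff_emod_sub_eq_zero.2 (Int.emod_eq_zero_of_dvd this)).symm)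
    · intro hd
      have h3 : (N : ℤ) ∣ x - (a + b) := Int.dvd_of_emod_eq_zero
        (Int.emod_eq_emod_iff_emod_sub_eq_zero.1 hd.symm)
      have e2 : z - (b : ℤ) = x - (a + b) := by linarith
      rw [e2]; exact h3
  refine ⟨((q.1 : ℤ), x - q.1), ⟨mem_subS.2 ⟨q.1, hqA, rfl⟩, ?_, by simp⟩, ?_⟩
  · exact ⟨q.2, hqB, (hcong q.1 q.2 _ (by simp)).2 hqr⟩
  · rintro ⟨y, z⟩ ⟨h1, ⟨b, hb, hd⟩, h3⟩
    obtain ⟨a, ha, rfl⟩ := mem_subS.1 h1
    simp only at hd h3
    have h4 := hmem (a, b) ha hb ((hcong a b z h3).1 hd)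
    have h5 : a = q.1 := congrArg Prod.fst h4
    rw [h5] at h3 ⊢
    simp only [Prod.mk.injEq, true_and]
    linarith

/-- Certificates `(pattern, period, complement)`. -/
def certs : List (ℕ × ℕ × List ℕ) :=
  [(1, 1, [0]), (2, 1, [0]), (3, 4, [0, 1]), (4, 1, [0]), (5, 8, [0, 1, 2, 3]), (6, 4, [0, 1]), 
   (7, 9, [0, 1, 2]), (8, 1, [0]), (9, 2, [0]), (10, 2, [0]), (12, 2, [0]), (16, 1, [0]), 
   (17, 4, [0, 1]), (18, 8, [0, 1, 2, 3]), (20, 4, [0, 1]), (22, 9, [0, 1, 2]), (23, 8, [0, 1]), 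
   (24, 2, [0]), (32, 1, [0]), (33, 2, [0]), (34, 2, [0]), (36, 2, [0]), (40, 4, [0, 1]), 
   (41, 3, [0]), (42, 3, [0]), (43, 4, [0]), (44, 3, [0]), (46, 4, [0]), (48, 2, [0]), 
   (55, 5, [0]), (56, 3, [0]), (57, 4, [0]), (59, 5, [0]), (60, 4, [0]), (64, 1, [0]), 
   (65, 2, [0]), (66, 2, [0]), (68, 2, [0]), (72, 4, [0, 1]), (75, 4, [0]), (78, 4, [0]), 
   (80, 2, [0]), (89, 4, [0]), (92, 4, [0]), (96, 8, [0, 1, 2, 3]), (97, 3, [0]), (98, 3, [0]), 
   (100, 3, [0]), (101, 8, [0, 2]), (103, 5, [0]), (107, 5, [0]), (112, 3, [0]), (114, 8, [0, 2]), 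
   (128, 1, [0]), (129, 2, [0]), (130, 2, [0]), (132, 2, [0]), 
   (136, 16, [0, 1, 2, 3, 4, 5, 6, 7]), (137, 3, [0]), (138, 3, [0]), (140, 3, [0]), 
   (144, 2, [0]), (152, 3, [0]), (160, 4, [0, 1]), (163, 4, [0]), (166, 4, [0]), (177, 4, [0]), 
   (180, 4, [0]), (182, 5, [0]), (186, 5, [0]), (192, 4, [0, 1]), (193, 3, [0]), (194, 3, [0]), 
   (195, 4, [0]), (196, 3, [0]), (198, 4, [0]), (208, 3, [0]), (209, 4, [0]), (212, 4, [0]), 
   (230, 5, [0]), (234, 5, [0]), (235, 12, [0, 3]), (238, 12, [0, 3]), (249, 12, [0, 3]), 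
   (252, 12, [0, 3]), (256, 1, [0]), (257, 2, [0]), (258, 2, [0]), (260, 2, [0]), 
   (264, 8, [0, 1, 2, 3]), (269, 8, [0, 2]), (272, 2, [0]), (279, 5, [0]), (282, 8, [0, 2]), 
   (283, 5, [0]), (288, 4, [0, 1]), (289, 3, [0]), (290, 3, [0]), (291, 4, [0]), (292, 3, [0]), 
   (294, 4, [0]), (304, 3, [0]), (305, 4, [0]), (308, 4, [0]), (320, 4, [0, 1]), (323, 4, [0]), 
   (326, 4, [0]), (327, 5, [0]), (328, 9, [0, 1, 2]), (331, 5, [0]), (335, 18, [0, 2, 4]), 
   (337, 4, [0]), (340, 4, [0]), (350, 18, [0, 2, 4]), (351, 7, [0]), (360, 8, [0, 1]), 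
   (379, 7, [0]), (383, 8, [0]), (384, 8, [0, 1, 2, 3]), (385, 3, [0]), (386, 3, [0]), 
   (388, 3, [0]), (389, 8, [0, 2]), (400, 3, [0]), (402, 8, [0, 2]), (406, 5, [0]), (410, 5, [0]), 
   (454, 5, [0]), (458, 5, [0]), (463, 7, [0]), (480, 8, [0, 1]), (483, 12, [0, 3]), 
   (486, 12, [0, 3]), (491, 7, [0]), (497, 12, [0, 3]), (500, 12, [0, 3]), (503, 8, [0]), 
   (512, 1, [0]), (513, 2, [0]), (514, 2, [0]), (516, 2, [0]), (520, 4, [0, 1]), (521, 3, [0]), 
   (522, 3, [0]), (523, 4, [0]), (524, 3, [0]), (526, 4, [0]), (528, 2, [0]), (536, 3, [0]), 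
   (537, 4, [0]), (540, 4, [0]), (544, 8, [0, 1, 2, 3]), (549, 8, [0, 2]), (562, 8, [0, 2]), 
   (565, 5, [0]), (569, 5, [0]), (576, 16, [0, 1, 2, 3, 4, 5, 6, 7]), (577, 3, [0]), 
   (578, 3, [0]), (580, 3, [0]), (592, 3, [0]), (613, 5, [0]), (617, 5, [0]), (640, 4, [0, 1]), 
   (643, 4, [0]), (646, 4, [0]), (657, 4, [0]), (660, 4, [0]), (672, 9, [0, 1, 2]), 
   (679, 18, [0, 2, 4]), (692, 5, [0]), (694, 18, [0, 2, 4]), (696, 5, [0]), 
   (712, 16, [0, 1, 4, 5]), (715, 12, [0, 3]), (718, 12, [0, 3]), (729, 12, [0, 3]), 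
   (732, 12, [0, 3]), (740, 5, [0]), (744, 5, [0]), (768, 4, [0, 1]), (769, 3, [0]), 
   (770, 3, [0]), (771, 4, [0]), (772, 3, [0]), (774, 4, [0]), (784, 3, [0]), (785, 4, [0]), 
   (788, 4, [0]), (789, 5, [0]), (793, 5, [0]), (808, 8, [0, 1]), (813, 24, [0, 3, 6, 9]), 
   (826, 24, [0, 3, 6, 9]), (831, 8, [0]), (837, 5, [0]), (841, 5, [0]), (855, 7, [0]), 
   (883, 7, [0]), (916, 5, [0]), (920, 5, [0]), (928, 8, [0, 1]), (951, 8, [0]), 
   (963, 12, [0, 3]), (964, 5, [0]), (966, 12, [0, 3]), (967, 7, [0]), (968, 5, [0]), 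
   (977, 12, [0, 3]), (980, 12, [0, 3]), (995, 7, [0]), (1007, 9, [0]), (1022, 9, [0])]

theorem certs_ok : certs.all (fun c => okCert (subL c.1) c.2.1 c.2.2) = true := by
  decide +kernel

theorem certs_card : (certs.map (fun c => c.1)).toFinset.card = 213 := by
  decide +kernel

theorem certs_lt : certs.all (fun c => decide (c.1 < 1024)) = true := by
  decide +kernel

theorem subL_mem {m i : ℕ} (hi : i < 10) : El i ∈ subL m ↔ m.testBit i = true := by
  simp only [subL, List.mem_map, List.mem_filter, List.mem_range]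
  constructor
  · rintro ⟨j, ⟨hj, hj'⟩, he⟩
    have hinj : ∀ i < 10, ∀ j < 10, El j = El i → j = i := by decide
    rw [← hinj i hi j hj he]
    exact hj'
  · intro h
    exact ⟨i, ⟨hi, h⟩, rfl⟩

theorem subS_inj {m m' : ℕ} (hm : m < 1024) (hm' : m' < 1024) (h : subS m = subS m') :
    m = m' := by
  apply Nat.eq_of_testBit_eq
  intro i
  by_cases hi : i < 10
  · have key : ∀ m, (m.testBit i = true ↔ (El i : ℤ) ∈ subS m) := by
      intro m
      rw [mem_subS, ← subL_mem hi]
      constructor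
      · intro h; exact ⟨_, h, rfl⟩
      · rintro ⟨a, ha, he⟩
        have : a = El i := by exact_mod_cast he
        rwa [this] at ha
    rw [Bool.eq_iff_iff, key m, key m', h]
  · have h10 : 1024 ≤ 2 ^ i := by
      calc 1024 = 2 ^ 10 := by norm_num
        _ ≤ 2 ^ i := Nat.pow_le_pow_right (by norm_num) (by omega)
    rw [Nat.testBit_lt_two_pow (by omega), Nat.testBit_lt_two_pow (by omega)]

theorem subS_subset (m : ℕ) : subS m ⊆ M10 := by
  intro x hx
  obtain ⟨a, ha, rfl⟩ := mem_subS.1 hx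
  simp only [subL, List.mem_map, List.mem_filter, List.mem_range] at ha
  obtain ⟨i, ⟨hi, -⟩, rfl⟩ := ha
  have : ∀ i < 10, ((El i : ℕ) : ℤ) ∈ M10 := by decide
  exact this i hi

theorem tileCount_M10 : 213 ≤ tileCount M10 := by
  classical
  rw [← certs_card]
  unfold tileCount
  have h1 : ((certs.map (fun c => c.1)).toFinset.image subS) ⊆
      M10.powerset.filter IsTile := by
    intro S hS
    obtain ⟨m, hm, rfl⟩ := Finset.mem_image.1 hS
    rw [List.mem_toFinset, List.mem_map] at hm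
    obtain ⟨c, hc, rfl⟩ := hm
    rw [Finset.mem_filter, Finset.mem_powerset]
    exact ⟨subS_subset _, tile_of_cert (List.all_eq_true.1 certs_ok c hc)⟩
  have h2 := Finset.card_le_card h1
  rwa [Finset.card_image_of_injOn] at h2
  intro m hm m' hm' h
  rw [Finset.mem_coe, List.mem_toFinset, List.mem_map] at hm hm'
  obtain ⟨c, hc, rfl⟩ := hm
  obtain ⟨c', hc', rfl⟩ := hm'
  have k1 := List.all_eq_true.1 certs_lt c hc
  have k2 := List.all_eq_true.1 certs_lt c' hc'
  exact subS_inj (by simpa using k1) (by simpa using k2) h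

/-- Among the ten-element sets of integers, ten consecutive integers do not maximise the number of
tiles: the set `{1, 7, 13, 18, 19, 20, 24, 26, 30, 32}` contains at least 213 tiles, and
`{1, …, 10}` contains at most 210. -/
theorem result :
    ∃ M : Finset ℤ, M.card = 10 ∧ 213 ≤ tileCount M ∧ tileCount (Finset.Icc 1 10) ≤ 210 :=
  ⟨M10, by decide, tileCount_M10, tileCount_interval⟩

end Pool.Agent.Results.MP_237b44_co.NotInterval
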